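import Pool.Agent.helper87.TR.Spec

set_option autoImplicit false

/-! Row tr:CK (helper9): coordinates at a column. -/

namespace Pool.Agent.helper87.TR

open Polynomial Finset Module FP97
open Pool.Agent.helper97.FP

/-- the kernel of two independent evaluations of binary quadratic forms -/
theorem CK_ker (g1 g2 h1 h2 : ℂ) (hD : g1 * h2 - g2 * h1 ≠ 0) (z : Fin 3 → ℂ)
    (e1 : z 0 * g1 ^ 2 + z 1 * (g1 * g2) + z 2 * g2 ^ 2 = 0)
    (e2 : z 0 * h1 ^ 2 + z 1 * (h1 * h2) + z 2 * h2 ^ 2 = 0) :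
    ∃ t : ℂ, z 0 = t * (g2 * h2) ∧ z 1 = t * -(g1 * h2 + h1 * g2) ∧ z 2 = t * (g1 * h1) := by
  refine ⟨-(2 * z 0 * (g1 * h1) + z 1 * (g1 * h2 + g2 * h1) + 2 * z 2 * (g2 * h2)) /
    (g1 * h2 - g2 * h1) ^ 2, ?_, ?_, ?_⟩
  · rw [div_mul_eq_mul_div, eq_div_iff (pow_ne_zero 2 hD)]
    linear_combination h2 ^ 2 * e1 + g2 ^ 2 * e2
  · rw [div_mul_eq_mul_div, eq_div_iff (pow_ne_zero 2 hD)]
    linear_combination (-2 * h1 * h2) * e1 + (-2 * g1 * g2) * e2
  · rw [div_mul_eq_mul_div, eq_div_iff (pow_ne_zero 2 hD)]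
    linear_combination h1 ^ 2 * e1 + g1 ^ 2 * e2

theorem CK : CK_stmt := by
  intro P1 Q1 P2 Q2 x b b' hb hW
  set g1 : ℂ := Q1.eval x - b * P1.eval x with hg1
  set g2 : ℂ := Q2.eval x - b * P2.eval x with hg2
  set h1 : ℂ := Q1.eval x - b' * P1.eval x with hh1
  set h2 : ℂ := Q2.eval x - b' * P2.eval x with hh2
  have hD : g1 * h2 - g2 * h1 ≠ 0 := by
    have e : g1 * h2 - g2 * h1 = (b' - b) * (P1.eval x * Q2.eval x - P2.eval x * Q1.eval x) := by
      rw [hg1, hg2, hh1, hh2]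
      ring
    rw [e]
    exact mul_ne_zero (sub_ne_zero.2 (Ne.symm hb)) hW
  have ev1 : ∀ z : Fin 3 → ℂ, ev2 P1 Q1 P2 Q2 z x b =
      z 0 * g1 ^ 2 + z 1 * (g1 * g2) + z 2 * g2 ^ 2 := fun z => rfl
  have ev2' : ∀ z : Fin 3 → ℂ, ev2 P1 Q1 P2 Q2 z x b' =
      z 0 * h1 ^ 2 + z 1 * (h1 * h2) + z 2 * h2 ^ 2 := fun z => rfl
  constructor
  · intro c hc hc1 hc2
    rw [ev1] at hc1
    rw [ev2'] at hc2
    obtain ⟨t, t0, t1, t2⟩ := CK_ker g1 g2 h1 h2 hD c hc1 hc2
    have ht : t ≠ 0 := by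
      intro h0
      apply hc
      funext q
      fin_cases q
      · simp only [Fin.zero_eta, Pi.zero_apply]
        rw [t0, h0, zero_mul]
      · simp only [Fin.mk_one, Pi.zero_apply]
        rw [t1, h0, zero_mul]
      · simp only [Fin.reduceFinMk, Pi.zero_apply]
        rw [t2, h0, zero_mul]
    refine ⟨?_, ?_, ?_⟩
    · intro z
      constructor
      · rintro ⟨z1, z2⟩
        rw [ev1] at z1
        rw [ev2'] at z2
        obtain ⟨s, s0, s1, s2⟩ := CK_ker g1 g2 h1 h2 hD z z1 z2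
        refine ⟨s / t, fun q => ?_⟩
        fin_cases q
        · simp only [Fin.zero_eta]
          rw [s0, t0]
          field_simp
        · simp only [Fin.mk_one]
          rw [s1, t1]
          field_simp
        · simp only [Fin.reduceFinMk]
          rw [s2, t2]
          field_simp
      · rintro ⟨s, hs⟩
        rw [ev1, ev2', hs 0, hs 1, hs 2]
        constructor
        · linear_combination s * hc1
        · linear_combination s * hc2
    · intro h
      have e : t ^ 2 * (g1 * h2 - g2 * h1) ^ 2 = 0 := by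
        have : c 1 ^ 2 - 4 * c 0 * c 2 = 0 := by rw [h, sub_self]
        rw [t0, t1, t2] at this
        linear_combination this
      exact (mul_ne_zero (pow_ne_zero 2 ht) (pow_ne_zero 2 hD)) e
    · rw [t2, mul_eq_zero, mul_eq_zero, hg1, hh1, sub_eq_zero, sub_eq_zero]
      constructor
      · rintro (h | h)
        · exact absurd h ht
        · exact h
      · intro h
        exact Or.inr h
  · refine ⟨![g2 * h2, -(g1 * h2 + h1 * g2), g1 * h1], ?_, ?_, ?_⟩
    · intro h
      have k0 := congrFun h 0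
      have k1 := congrFun h 1
      have k2 := congrFun h 2
      simp only [Matrix.cons_val, Pi.zero_apply] at k0 k1 k2
      have e : (g1 * h2 - g2 * h1) ^ 2 = 0 := by
        linear_combination (-(g1 * h2 + h1 * g2)) * k1 - 4 * (g1 * h1) * k0
      exact hD (pow_eq_zero_iff (two_ne_zero) |>.1 e)
    · rw [ev1]
      simp only [Matrix.cons_val]
      ring
    · rw [ev2']
      simp only [Matrix.cons_val]
      ring

end Pool.Agent.helper87.TR
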