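import Pool.Agent.helper87.TR.Spec

set_option autoImplicit false

/-! Row tr:T1 (helper9): existence of reduced bases. -/

namespace Pool.Agent.helper87.TR

open Polynomial Finset Module FP97
open Pool.Agent.helper97.FP

lemma T1_mono {ι : Type} (a : ι → ℂ) (c : ι → Fin 3 → ℂ) (K : Finset ι) (δ m m' : ℕ) (h : m ≤ m') :
    NN a c K δ m ≤ NN a c K δ m' := by
  intro x hx
  exact ⟨fun q => degreeLT_mono (by omega) (hx.1 q), hx.2⟩

/-- the determinant of a reduced basis does not vanish outside `K` -/
lemma T1_det (h : DT_stmt) {ι : Type} (a : ι → ℂ) (c : ι → Fin 3 → ℂ) (K : Finset ι) (δ : ℕ)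
    (ha : Set.InjOn a K) (F : Fin 3 → Fin 3 → ℂ[X]) (g : Fin 3 → ℕ) (hF : Good a c K δ F g)
    (x : ℂ) (hx : ∀ k ∈ K, x ≠ a k) : (Matrix.of F).det.eval x ≠ 0 := by
  obtain ⟨h1, h2⟩ := h ι a c K δ ha F (fun i => g i + 1) hF.mem
  obtain ⟨z, hz⟩ := h1
  have hz0 : z ≠ 0 := by
    rintro rfl
    exact hF.det (by rw [hz, mul_zero])
  have hmon := monic_prod_pow K a (fun _ => 2)
  have hdeg := natDegree_prod_pow K a (fun _ => 2)
  have h3 : natDegree ((Matrix.of F).det) ≤ 2 * K.card := by
    have e1 := natDegree_le_of_mem h2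
    have e2 := hF.sum
    omega
  rw [hz, hmon.natDegree_mul' hz0, hdeg, sum_const, smul_eq_mul] at h3
  have h4 : z.natDegree = 0 := by omega
  obtain ⟨w, hw⟩ := natDegree_eq_zero.1 h4
  rw [hz, eval_mul, eval_prod, ← hw, eval_C]
  apply mul_ne_zero
  · refine prod_ne_zero_iff.2 fun k hk => ?_
    rw [eval_pow, eval_sub, eval_X, eval_C]
    exact pow_ne_zero 2 (sub_ne_zero.2 (hx k hk))
  · rintro rfl
    apply hz0
    rw [← hw, C_0]

lemma T1_gamma (M : Matrix (Fin 3) (Fin 3) ℂ) (hM : M.det ≠ 0) (v : Fin 3 → ℂ) :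
    ∃ γ : Fin 3 → ℂ, ∀ q, γ 0 * M 0 q + γ 1 * M 1 q + γ 2 * M 2 q = v q := by
  refine ⟨Matrix.vecMul v M⁻¹, fun q => ?_⟩
  have h1 : Matrix.vecMul (Matrix.vecMul v M⁻¹) M = v := by
    rw [Matrix.vecMul_vecMul, Matrix.nonsing_inv_mul _ (isUnit_iff_ne_zero.2 hM), Matrix.vecMul_one]
  have h2 := congrFun h1 q
  rw [Matrix.vecMul, dotProduct, Fin.sum_univ_three] at h2
  exact h2

lemma T1_E (γ : Fin 3 → ℂ) (x : ℂ) (j : Fin 3) :
    (Matrix.of fun i q : Fin 3 => if i = j then C (γ q) else if i = q then X - C x else 0).det =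
      C (γ j) * (X - C x) ^ 2 := by
  rw [Matrix.det_fin_three]
  fin_cases j
  · simp
    ring
  · simp
    ring
  · simp
    ring

lemma T1_step (h : DT_stmt) {ι : Type} [DecidableEq ι] (a : ι → ℂ) (c : ι → Fin 3 → ℂ)
    (K : Finset ι) (δ : ℕ) (k : ι) (hk : k ∉ K) (ha : Set.InjOn a (insert k K : Finset ι))
    (hc : c k ≠ 0) (F : Fin 3 → Fin 3 → ℂ[X]) (g y : Fin 3 → ℕ) (hF : Good a c K δ F g)
    (hy : y 0 + y 1 + y 2 = K.card) (hgy : ∀ i : Fin 3, g i + y i = K.card + (i : ℕ) * δ) :
    ∃ (F' : Fin 3 → Fin 3 → ℂ[X]) (g' y' : Fin 3 → ℕ), Good a c (insert k K) δ F' g' ∧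
      y' 0 + y' 1 + y' 2 = (insert k K).card ∧
      ∀ i : Fin 3, g' i + y' i = (insert k K).card + (i : ℕ) * δ := by
  have haK : Set.InjOn a K := ha.mono (by
    intro l hl
    exact mem_coe.2 (mem_insert_of_mem (mem_coe.1 hl)))
  have hne : ∀ l ∈ K, a k ≠ a l := by
    intro l hl e
    have := ha (mem_coe.2 (mem_insert_self k K)) (mem_coe.2 (mem_insert_of_mem hl)) e
    exact hk (this ▸ hl)
  have hdet := T1_det h a c K δ haK F g hF (a k) hne
  have hM : (Matrix.of fun i q => (F i q).eval (a k)).det ≠ 0 := by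
    have e : (Matrix.of fun i q => (F i q).eval (a k)).det = (Matrix.of F).det.eval (a k) := by
      rw [Matrix.det_fin_three, Matrix.det_fin_three]
      simp only [Matrix.of_apply, eval_add, eval_sub, eval_mul]
    rw [e]
    exact hdet
  obtain ⟨γ, hγ⟩ := T1_gamma _ hM (c k)
  simp only [Matrix.of_apply] at hγ
  have hγ0 : (univ.filter fun i => γ i ≠ 0).Nonempty := by
    by_contra hcon
    rw [not_nonempty_iff_eq_empty, filter_eq_empty_iff] at hcon
    apply hc
    funext q
    have g0 := hcon (mem_univ 0)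
    have g1 := hcon (mem_univ 1)
    have g2 := hcon (mem_univ 2)
    rw [not_not] at g0 g1 g2
    rw [← hγ q, g0, g1, g2, Pi.zero_apply]
    ring
  obtain ⟨j, hj, hjmax⟩ := exists_max_image _ g hγ0
  rw [mem_filter] at hj
  have hγj : γ j ≠ 0 := hj.2
  have hmax : ∀ i, γ i ≠ 0 → g i ≤ g j := fun i hi => hjmax i (mem_filter.2 ⟨mem_univ i, hi⟩)
  have hcard : (insert k K).card = K.card + 1 := card_insert_of_notMem hk
  have hgy' : ∀ i : Fin 3, (if i = j then g i else g i + 1) + (if i = j then y i + 1 else y i) =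
      (insert k K).card + (i : ℕ) * δ := by
    intro i
    have := hgy i
    rw [hcard]
    split_ifs <;> omega
  have hy' : (if (0 : Fin 3) = j then y 0 + 1 else y 0) + (if (1 : Fin 3) = j then y 1 + 1 else y 1) +
      (if (2 : Fin 3) = j then y 2 + 1 else y 2) = (insert k K).card := by
    rw [hcard, ← hy]
    fin_cases j
    · simp
      omega
    · simp
      omega
    · simp
      omega
  refine ⟨fun i => if i = j then (fun q => C (γ 0) * F 0 q + C (γ 1) * F 1 q + C (γ 2) * F 2 q)
    else fun q => (X - C (a k)) * F i q, fun i => if i = j then g i else g i + 1,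
    fun i => if i = j then y i + 1 else y i, ⟨?_, ?_, ?_⟩, hy', hgy'⟩
  · intro i
    by_cases hi : i = j
    · simp only [hi, if_true]
      constructor
      · intro q
        have key : ∀ i, C (γ i) * F i q ∈ degreeLT ℂ (g j + 1 - (q : ℕ) * δ) := by
          intro i
          by_cases h0 : γ i = 0
          · rw [h0, C_0, zero_mul]
            exact zero_mem _
          · rw [C_mul']
            apply Submodule.smul_mem
            have := hmax i h0
            exact degreeLT_mono (by omega) ((hF.mem i).1 q)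
        exact add_mem (add_mem (key 0) (key 1)) (key 2)
      · intro l hl
        rw [mem_insert] at hl
        rcases hl with rfl | hl
        · refine ⟨1, fun q => ?_⟩
          simp only [eval_add, eval_mul, eval_C]
          rw [hγ q, one_mul]
        · have hs : ∀ i, ∃ s : ℂ, ∀ q, (F i q).eval (a l) = s * c l q := fun i => (hF.mem i).2 l hl
          choose s hs using hs
          refine ⟨γ 0 * s 0 + γ 1 * s 1 + γ 2 * s 2, fun q => ?_⟩
          simp only [eval_add, eval_mul, eval_C]
          rw [hs 0 q, hs 1 q, hs 2 q]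
          ring
    · simp only [hi, if_false]
      constructor
      · intro q
        rw [mem_degreeLT_mul (X_sub_C_ne_zero _), natDegree_X_sub_C]
        exact degreeLT_mono (by omega) ((hF.mem i).1 q)
      · intro l hl
        rw [mem_insert] at hl
        rcases hl with rfl | hl
        · refine ⟨0, fun q => ?_⟩
          rw [eval_mul, eval_sub, eval_X, eval_C, sub_self, zero_mul, zero_mul]
        · obtain ⟨s, hs⟩ := (hF.mem i).2 l hl
          refine ⟨(a l - a k) * s, fun q => ?_⟩
          rw [eval_mul, eval_sub, eval_X, eval_C, hs q, mul_assoc]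
  · have e : (Matrix.of fun i => if i = j then
        (fun q => C (γ 0) * F 0 q + C (γ 1) * F 1 q + C (γ 2) * F 2 q)
        else fun q => (X - C (a k)) * F i q) =
        (Matrix.of fun i q : Fin 3 => if i = j then C (γ q) else if i = q then X - C (a k) else 0) *
          Matrix.of F := by
      ext1 i q
      rw [Matrix.mul_apply, Matrix.of_apply]
      by_cases hi : i = j
      · simp only [hi, if_true, Matrix.of_apply]
        rw [Fin.sum_univ_three]
      · simp only [hi, if_false, Matrix.of_apply]
        simp only [ite_mul, zero_mul]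
        rw [sum_ite_eq univ i]
        simp
    rw [e, Matrix.det_mul, T1_E]
    exact mul_ne_zero (mul_ne_zero (C_ne_zero.2 hγj) (pow_ne_zero 2 (X_sub_C_ne_zero _))) hF.det
  · have e0 := hgy' 0
    have e1 := hgy' 1
    have e2 := hgy' 2
    simp only [Fin.val_zero, Fin.val_one, Fin.val_two] at e0 e1 e2
    omega

theorem T1 (h : DT_stmt) : T1_stmt := by
  intro ι a c K δ ha hc
  classical
  induction K using Finset.induction_on with
  | empty =>
    refine ⟨fun i q => if q = i then 1 else 0, fun i => (i : ℕ) * δ, fun _ => 0, ⟨?_, ?_, ?_⟩, ?_, ?_⟩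
    · intro i
      constructor
      · intro q
        by_cases hq : q = i
        · simp only [hq, if_true]
          rw [mem_degreeLT, degree_one]
          norm_cast
          omega
        · simp only [hq, if_false]
          exact zero_mem _
      · intro k hk
        exact absurd hk (notMem_empty k)
    · rw [Matrix.det_fin_three]
      simp
    · simp
      ring
    · simp
    · intro i
      simp
  | insert k K hk ih =>
    have haK : Set.InjOn a K := ha.mono (by
      intro l hl
      exact mem_coe.2 (mem_insert_of_mem (mem_coe.1 hl)))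
    obtain ⟨F, g, y, hF, hy, hgy⟩ := ih haK (fun l hl => hc l (mem_insert_of_mem hl))
    exact T1_step h a c K δ k hk ha (hc k (mem_insert_self k K)) F g y hF hy hgy

end Pool.Agent.helper87.TR
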